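import Mathlib

/-!
Hypersurfaces (MP_b8862a_ag): counting the vectors of non-zero residues with a given sum, with moments.
-/

open Finset

namespace MH.HY

variable {d : ℕ} [NeZero d]

/-- the vectors of `k` non-zero residues modulo `d` with the sum `r` -/
def Bk (d : ℕ) [NeZero d] (k : ℕ) (r : ZMod d) : Finset (Fin k → ZMod d) :=
  univ.filter fun a => (∀ i, a i ≠ 0) ∧ ∑ i, a i = r

/-- the symmetric value of a residue: `2 x - d` for `0 < x < d` -/
def bv (d : ℕ) [NeZero d] (x : ZMod d) : ℚ := if x = 0 then 0 else 2 * (x.val : ℚ) - d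

theorem sum_succ14 {k : ℕ} (r : ZMod d) (φ : (Fin (k + 1) → ZMod d) → ℚ) :
    ∑ a ∈ Bk d (k + 1) r, φ a = ∑ x ∈ univ.erase (0 : ZMod d), ∑ a ∈ Bk d k (r - x), φ (Fin.cons x a) := by
  rw [Finset.sum_sigma']
  refine sum_nbij' (fun a => ⟨a 0, Fin.tail a⟩) (fun p => Fin.cons p.1 p.2) ?_ ?_ ?_ ?_ ?_
  · intro a ha
    rw [Bk, mem_filter] at ha
    obtain ⟨-, h1, h2⟩ := ha
    rw [mem_sigma, mem_erase, Bk, mem_filter]
    refine ⟨⟨h1 0, mem_univ _⟩, mem_univ _, fun i => h1 _, ?_⟩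
    rw [← h2, Fin.sum_univ_succ]
    simp [Fin.tail]
  · rintro ⟨x, a⟩ h
    rw [mem_sigma, mem_erase, Bk, mem_filter] at h
    obtain ⟨⟨h1, -⟩, -, h2, h3⟩ := h
    rw [Bk, mem_filter]
    refine ⟨mem_univ _, fun i => ?_, ?_⟩
    · refine Fin.cases ?_ (fun i => ?_) i
      · simpa using h1
      · simpa using h2 i
    · rw [Fin.sum_univ_succ]
      simp only [Fin.cons_zero, Fin.cons_succ]
      rw [h3]
      ring
  · intro a _
    simp
  · rintro ⟨x, a⟩ _
    simp
  · intro a _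
    simp

theorem sum_erase14 (r : ZMod d) (f : ZMod d → ℚ) :
    ∑ x ∈ univ.erase (0 : ZMod d), f (r - x) = ∑ s, f s - f r := by
  have h1 : ∑ x, f (r - x) = ∑ s, f s := Equiv.sum_comp (Equiv.subLeft r) f
  have h2 := Finset.add_sum_erase univ (fun x => f (r - x)) (mem_univ (0 : ZMod d))
  simp only [sub_zero] at h2
  rw [← h1, ← h2]
  ring

/-- the number of vectors -/
theorem card_Bk (k : ℕ) : ∀ r : ZMod d, ((Bk d k r).card : ℚ) =
    (((d : ℚ) - 1) ^ k - (-1) ^ k) / d + (if r = 0 then (-1) ^ k else 0) := by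
  have hd : (d : ℚ) ≠ 0 := Nat.cast_ne_zero.2 (NeZero.ne d)
  induction k with
  | zero =>
    intro r
    by_cases hr : r = 0
    · subst hr
      have h1 : Bk d 0 0 = {Fin.elim0} := by
        ext a
        simp only [Bk, mem_filter, mem_univ, true_and, mem_singleton, Finset.univ_eq_empty, Finset.sum_empty]
        exact ⟨fun _ => Subsingleton.elim _ _, fun _ => ⟨fun i => i.elim0, trivial⟩⟩
      rw [h1, card_singleton]
      simp
    · have h1 : Bk d 0 r = ∅ := by
        ext a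
        simp only [Bk, mem_filter, mem_univ, true_and, Finset.univ_eq_empty, Finset.sum_empty, Finset.notMem_empty,
          iff_false, not_and]
        intro _ h
        exact hr h.symm
      rw [h1, card_empty, if_neg hr]
      simp
  | succ k ih =>
    intro r
    have h1 : ((Bk d (k + 1) r).card : ℚ) = ∑ x ∈ univ.erase (0 : ZMod d), ((Bk d k (r - x)).card : ℚ) := by
      have h2 := sum_succ14 (k := k) r (fun _ => 1)
      simpa using h2
    rw [h1, sum_erase14 r fun s => ((Bk d k s).card : ℚ), ih r]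
    simp only [ih]
    rw [Finset.sum_add_distrib, Finset.sum_ite_eq' univ (0 : ZMod d), if_pos (mem_univ _), Finset.sum_const,
      card_univ, ZMod.card, nsmul_eq_mul]
    by_cases hr : r = 0
    · rw [if_pos hr, if_pos hr]
      field_simp
      ring
    · rw [if_neg hr, if_neg hr]
      field_simp
      ring

theorem bv_zero : bv d 0 = 0 := if_pos rfl

theorem bv_neg (x : ZMod d) : bv d (-x) = -bv d x := by
  unfold bv
  by_cases hx : x = 0
  · rw [hx, neg_zero, if_pos rfl, neg_zero]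
  · have hx' : -x ≠ 0 := neg_ne_zero.2 hx
    rw [if_neg hx, if_neg hx', ZMod.neg_val, if_neg hx, Nat.cast_sub (ZMod.val_lt x).le]
    ring

theorem sum_bv : ∑ x : ZMod d, bv d x = 0 := by
  have h1 : ∑ x : ZMod d, bv d (-x) = ∑ x : ZMod d, bv d x := Equiv.sum_comp (Equiv.neg (ZMod d)) (bv d)
  simp only [bv_neg, Finset.sum_neg_distrib] at h1
  linarith

theorem sum_erase_bv (f : ZMod d → ℚ) : ∑ x ∈ univ.erase (0 : ZMod d), bv d x * f x = ∑ x, bv d x * f x := by
  have h2 := Finset.add_sum_erase univ (fun x => bv d x * f x) (mem_univ (0 : ZMod d))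
  simp only [bv_zero, zero_mul, zero_add] at h2
  exact h2

/-- the first moment -/
def Sk (d : ℕ) [NeZero d] (k : ℕ) (r : ZMod d) : ℚ := ∑ a ∈ Bk d k r, ∑ i, bv d (a i)

/-- the second moment -/
def Mk (d : ℕ) [NeZero d] (k : ℕ) (r : ZMod d) : ℚ := ∑ a ∈ Bk d k r, (∑ i, bv d (a i)) ^ 2

theorem Sk_succ (k : ℕ) (r : ZMod d) : Sk d (k + 1) r =
    ∑ x ∈ univ.erase (0 : ZMod d), (bv d x * ((Bk d k (r - x)).card : ℚ) + Sk d k (r - x)) := by
  unfold Sk
  rw [sum_succ14]
  refine sum_congr rfl fun x _ => ?_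
  simp only [Fin.sum_univ_succ, Fin.cons_zero, Fin.cons_succ]
  rw [Finset.sum_add_distrib, Finset.sum_const, nsmul_eq_mul, mul_comm]

theorem Mk_succ (k : ℕ) (r : ZMod d) : Mk d (k + 1) r =
    ∑ x ∈ univ.erase (0 : ZMod d), (bv d x * (bv d x * ((Bk d k (r - x)).card : ℚ)) + bv d x * (2 * Sk d k (r - x)) +
      Mk d k (r - x)) := by
  unfold Mk Sk
  rw [sum_succ14]
  refine sum_congr rfl fun x _ => ?_
  simp only [Fin.sum_univ_succ, Fin.cons_zero, Fin.cons_succ, add_sq]
  rw [Finset.sum_add_distrib, Finset.sum_add_distrib, Finset.sum_const, nsmul_eq_mul, ← Finset.mul_sum]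
  ring

theorem Sk_eq (k : ℕ) : ∀ r : ZMod d, Sk d k r = -(k * (-1) ^ k * bv d r) := by
  induction k with
  | zero =>
    intro r
    unfold Sk
    simp
  | succ k ih =>
    intro r
    rw [Sk_succ, Finset.sum_add_distrib, sum_erase14 r (fun s => Sk d k s), sum_erase_bv]
    simp only [ih, card_Bk, mul_add, Finset.sum_add_distrib, ← Finset.sum_mul, sum_bv, zero_mul, zero_add, mul_ite,
      mul_zero, Finset.sum_neg_distrib, ← Finset.mul_sum]
    have h1 : ∀ x : ZMod d, (r - x = 0) = (r = x) := fun x => propext sub_eq_zero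
    simp only [h1, Finset.sum_ite_eq, mem_univ, if_true]
    push_cast
    ring

theorem sum_card14 (k : ℕ) : ∑ r : ZMod d, ((Bk d k r).card : ℚ) = ((d : ℚ) - 1) ^ k := by
  have hd : (d : ℚ) ≠ 0 := Nat.cast_ne_zero.2 (NeZero.ne d)
  simp only [card_Bk]
  rw [Finset.sum_add_distrib, Finset.sum_ite_eq' univ (0 : ZMod d), if_pos (mem_univ _), Finset.sum_const,
    card_univ, ZMod.card, nsmul_eq_mul]
  field_simp
  ring

theorem sum_Sk (k : ℕ) : ∑ r : ZMod d, Sk d k r = 0 := by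
  simp only [Sk_eq, Finset.sum_neg_distrib, ← Finset.mul_sum, sum_bv, mul_zero, neg_zero]

/-- the total second moment -/
theorem sum_Mk (k : ℕ) : ∑ r : ZMod d, Mk d (k + 1) r = (k + 1) * ((d : ℚ) - 1) ^ k * ∑ x : ZMod d, bv d x ^ 2 := by
  have hrec : ∀ k : ℕ, ∑ r : ZMod d, Mk d (k + 1) r =
      ((d : ℚ) - 1) ^ k * ∑ x : ZMod d, bv d x ^ 2 + ((d : ℚ) - 1) * ∑ r : ZMod d, Mk d k r := by
    intro k
    simp only [Mk_succ]
    rw [Finset.sum_comm]
    have h1 : ∀ (x : ZMod d) (f : ZMod d → ℚ), ∑ r : ZMod d, f (r - x) = ∑ r, f r :=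
      fun x f => Equiv.sum_comp (Equiv.subRight x) f
    have h2 : ∀ x : ZMod d, ∑ r : ZMod d, (bv d x * (bv d x * ((Bk d k (r - x)).card : ℚ)) +
        bv d x * (2 * Sk d k (r - x)) + Mk d k (r - x)) =
        bv d x ^ 2 * ((d : ℚ) - 1) ^ k + ∑ r : ZMod d, Mk d k r := by
      intro x
      rw [Finset.sum_add_distrib, Finset.sum_add_distrib, ← Finset.mul_sum, ← Finset.mul_sum, ← Finset.mul_sum,
        ← Finset.mul_sum, h1 x fun s => ((Bk d k s).card : ℚ), h1 x fun s => Sk d k s, h1 x fun s => Mk d k s,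
        sum_card14, sum_Sk]
      ring
    simp only [h2]
    rw [Finset.sum_add_distrib, Finset.sum_const, card_erase_of_mem (mem_univ _), card_univ, ZMod.card, nsmul_eq_mul,
      ← Finset.sum_mul]
    have h3 : ∑ x ∈ univ.erase (0 : ZMod d), bv d x ^ 2 = ∑ x : ZMod d, bv d x ^ 2 := by
      have h4 := sum_erase_bv (d := d) (fun x => bv d x)
      simpa only [← sq] using h4
    rw [h3, Nat.cast_sub (NeZero.one_le), Nat.cast_one]
    ring
  induction k with
  | zero =>
    rw [hrec]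
    simp [Mk]
  | succ k ih =>
    rw [hrec, ih]
    push_cast
    ring

/-- **the second moment for the sum zero** -/
theorem Mk_zero (k : ℕ) : Mk d (k + 1) 0 =
    (k + 1) * (∑ x : ZMod d, bv d x ^ 2) * ((((d : ℚ) - 1) ^ k - (-1) ^ k) / d + (-1) ^ k * k) := by
  have hd : (d : ℚ) ≠ 0 := Nat.cast_ne_zero.2 (NeZero.ne d)
  obtain ⟨σ, hσ⟩ : ∃ σ : ℚ, σ = ∑ x : ZMod d, bv d x ^ 2 := ⟨_, rfl⟩
  have hrec : ∀ k : ℕ, Mk d (k + 1) 0 = σ * ((((d : ℚ) - 1) ^ k - (-1) ^ k) / d) + 2 * k * (-1) ^ k * σ +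
      ∑ r : ZMod d, Mk d k r - Mk d k 0 := by
    intro k
    rw [Mk_succ, Finset.sum_add_distrib, sum_erase14 0 (fun s => Mk d k s), Finset.sum_add_distrib, sum_erase_bv,
      sum_erase_bv]
    have h1 : ∀ x : ZMod d, bv d x * (bv d x * ((Bk d k (0 - x)).card : ℚ)) =
        bv d x ^ 2 * ((((d : ℚ) - 1) ^ k - (-1) ^ k) / d) := by
      intro x
      by_cases hx : x = 0
      · rw [hx, bv_zero]
        ring
      · rw [card_Bk, if_neg (by rw [zero_sub]; exact neg_ne_zero.2 hx)]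
        ring
    have h2 : ∀ x : ZMod d, bv d x * (2 * Sk d k (0 - x)) = bv d x ^ 2 * (2 * k * (-1) ^ k) := by
      intro x
      rw [Sk_eq, zero_sub, bv_neg]
      ring
    simp only [h1, h2]
    rw [← Finset.sum_mul, ← Finset.sum_mul, ← hσ]
    ring
  rw [← hσ]
  induction k with
  | zero =>
    rw [hrec]
    simp [Mk]
  | succ k ih =>
    rw [hrec, ih, sum_Mk, ← hσ]
    push_cast
    field_simp
    ring

end MH.HY
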