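import Pool.Agent.Helper14.HY.Hyp

/-!
Hypersurfaces (MP_b8862a_ag): the greatest common divisor of the dimension and the second moment in even dimension.
-/

open Finset

namespace MH.HY

/-- the alternating geometric sum `((d - 1) ^ (N + 1) + 1) / d` for even `N` -/
def mm (N d : ℕ) : ℤ := ∑ i ∈ range (N + 1), (-((d : ℤ) - 1)) ^ i

theorem mm_mul {N : ℕ} (d : ℕ) (hN : Even N) : (d : ℤ) * mm N d = ((d : ℤ) - 1) ^ (N + 1) + 1 := by
  have h1 := mul_geom_sum (-((d : ℤ) - 1)) (N + 1)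
  have h2 : (-((d : ℤ) - 1)) ^ (N + 1) = -((d : ℤ) - 1) ^ (N + 1) := (hN.add_one).neg_pow _
  rw [h2] at h1
  unfold mm
  linear_combination -h1

theorem mm_mod {N : ℕ} (d : ℕ) (hN : Even N) : ((d : ℤ) - 2) ∣ mm N d - 1 := by
  have h1 : ∑ i ∈ range (N + 1), (-1 : ℤ) ^ i = 1 := by
    rw [neg_one_geom_sum, if_neg]
    rw [Nat.even_add_one]
    exact not_not.2 hN
  have h2 : mm N d - 1 = ∑ i ∈ range (N + 1), ((-((d : ℤ) - 1)) ^ i - (-1) ^ i) := by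
    rw [Finset.sum_sub_distrib, h1]
    rfl
  rw [h2]
  refine Finset.dvd_sum fun i _ => ?_
  have h3 := sub_dvd_pow_sub_pow (-((d : ℤ) - 1)) (-1) i
  have h4 : (-((d : ℤ) - 1)) - (-1) = -((d : ℤ) - 2) := by ring
  rw [h4, neg_dvd] at h3
  exact h3

variable {N d : ℕ} [NeZero d]

/-- the dimension of the primitive cohomology -/
theorem dim_mm (hN : Even N) : ((∑ j ∈ Icc (0 : ℤ) N, hyp N d j : ℕ) : ℤ) = ((d : ℤ) - 1) * mm N d := by
  have hd : (d : ℤ) ≠ 0 := by exact_mod_cast NeZero.ne d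
  have h1 := dim_hyp14 (N := N) (d := d)
  rw [hN.neg_one_pow, one_mul] at h1
  have h2 : (d : ℤ) * ((∑ j ∈ Icc (0 : ℤ) N, hyp N d j : ℕ) : ℤ) = ((d : ℤ) - 1) ^ (N + 2) + ((d : ℤ) - 1) := by
    have h3 : ((d : ℤ) * ((∑ j ∈ Icc (0 : ℤ) N, hyp N d j : ℕ) : ℤ) : ℚ) =
        ((((d : ℤ) - 1) ^ (N + 2) + ((d : ℤ) - 1) : ℤ) : ℚ) := by
      push_cast
      exact h1
    exact_mod_cast h3
  have h3 := mm_mul d hN
  apply mul_left_cancel₀ hd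
  linear_combination h2 - ((d : ℤ) - 1) * h3

/-- the second moment -/
theorem tr_mm (hN : Even N) : 3 * (d : ℤ) * ((∑ j ∈ Icc (0 : ℤ) N, hyp N d j * (2 * j - N).natAbs ^ 2 : ℕ) : ℤ) =
    (N + 2) * (d - 1) * (d - 2) * (mm N d - (N + 1)) := by
  have hd : (d : ℚ) ≠ 0 := Nat.cast_ne_zero.2 (NeZero.ne d)
  have h1 := tr_hyp14 (N := N) (d := d)
  rw [hN.neg_one_pow, one_mul] at h1
  have h3 : (d : ℚ) * (mm N d : ℚ) = ((d : ℚ) - 1) ^ (N + 1) + 1 := by exact_mod_cast mm_mul d hN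
  have h4 : (((d : ℚ) - 1) ^ (N + 1) + 1) / d = mm N d := by
    rw [← h3]
    field_simp
  rw [h4] at h1
  have h5 : ((3 * (d : ℤ) * ((∑ j ∈ Icc (0 : ℤ) N, hyp N d j * (2 * j - N).natAbs ^ 2 : ℕ) : ℤ) : ℤ) : ℚ) =
      (((N + 2) * (d - 1) * (d - 2) * (mm N d - (N + 1)) : ℤ) : ℚ) := by
    push_cast
    rw [← h1]
    congr 1
    refine Finset.sum_congr rfl fun j _ => ?_
    congr 1
    have h6 : |2 * (j : ℚ) - (N : ℚ)| ^ 2 = (2 * (j : ℚ) - (N : ℚ)) ^ 2 := sq_abs _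
    first
      | exact h6
      | (rw [← h6]; push_cast; rfl)
  exact_mod_cast h5

/-- **the greatest common divisor** -/
theorem gcd_hyp14 (hN : Even N) : Nat.gcd (∑ j ∈ Icc (0 : ℤ) N, hyp N d j)
    (∑ j ∈ Icc (0 : ℤ) N, hyp N d j * (2 * j - N).natAbs ^ 2) ∣ (N + 1) * (N + 2) * (d - 1) := by
  have hd1 : 1 ≤ d := NeZero.one_le
  have h1 := dim_mm (N := N) (d := d) hN
  have h2 := tr_mm (N := N) (d := d) hN
  obtain ⟨s, hs⟩ := mm_mod d hN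
  obtain ⟨n, hn⟩ : ∃ n : ℕ, n = ∑ j ∈ Icc (0 : ℤ) N, hyp N d j := ⟨_, rfl⟩
  obtain ⟨T, hT⟩ : ∃ T : ℕ, T = ∑ j ∈ Icc (0 : ℤ) N, hyp N d j * (2 * j - N).natAbs ^ 2 := ⟨_, rfl⟩
  rw [← hn] at h1
  rw [← hT] at h2
  rw [← hn, ← hT]
  have g1 : (Nat.gcd n T : ℤ) ∣ ((d : ℤ) - 1) * mm N d := by
    rw [← h1]
    exact_mod_cast Nat.gcd_dvd_left n T
  have g2 : (Nat.gcd n T : ℤ) ∣ (N + 2) * (d - 1) * (d - 2) * (mm N d - (N + 1)) := by
    rw [← h2]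
    exact Dvd.dvd.mul_left (by exact_mod_cast Nat.gcd_dvd_right n T) _
  have g3 : (Nat.gcd n T : ℤ) ∣ (N + 1) * (N + 2) * ((d : ℤ) - 1) := by
    have e1 : ((N : ℤ) + 1) * (N + 2) * ((d : ℤ) - 1) =
        (((d : ℤ) - 1) * mm N d) * ((N + 1) * (N + 2) - s * (N + 2) * (d - 2)) +
          s * ((N + 2) * (d - 1) * (d - 2) * (mm N d - (N + 1))) := by
      have hs' : mm N d = 1 + (d - 2) * s := by linear_combination hs
      rw [hs']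
      ring
    rw [e1]
    exact dvd_add (Dvd.dvd.mul_right g1 _) (Dvd.dvd.mul_left g2 _)
  have e2 : (((N + 1) * (N + 2) * (d - 1) : ℕ) : ℤ) = (N + 1) * (N + 2) * ((d : ℤ) - 1) := by
    push_cast [Nat.cast_sub hd1]
    ring
  rw [← e2] at g3
  exact_mod_cast g3

end MH.HY
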