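import Pool.Agent.Helper14.HY.Cnt

/-!
Hypersurfaces (MP_b8862a_ag): the dimension and the second moment of the Hodge numbers of the primitive cohomology.
-/

open Finset

namespace MH.HY

/-- The number of vectors of `N + 2` integers between `1` and `d - 1` with the sum `(j + 1) d`: the Hodge number
`h^(j, N - j)` of the primitive cohomology of a smooth hypersurface of degree `d` and dimension `N`. -/
def hyp (N d : ℕ) (j : ℤ) : ℕ :=
  (univ.filter fun a : Fin (N + 2) → Fin d => (∀ i, 1 ≤ (a i : ℕ)) ∧ ∑ i, ((a i : ℕ) : ℤ) = (j + 1) * d).card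

theorem sum_sq14 (c : ℚ) (m : ℕ) : ∑ i ∈ range m, (2 * (i : ℚ) - c) ^ 2 =
    m * c ^ 2 - 2 * c * m * (m - 1) + 2 * m * (m - 1) * (2 * m - 1) / 3 := by
  induction m with
  | zero => simp
  | succ m ih =>
    rw [sum_range_succ, ih]
    push_cast
    ring

theorem sum_bv_sq (d : ℕ) [NeZero d] : ∑ x : ZMod d, bv d x ^ 2 = (d : ℚ) * (d - 1) * (d - 2) / 3 := by
  have h0 : ∑ x : ZMod d, (2 * (x.val : ℚ) - d) ^ 2 = ∑ i ∈ range d, (2 * (i : ℚ) - d) ^ 2 := by
    refine sum_nbij' (fun x => x.val) (fun i => (i : ZMod d)) ?_ ?_ ?_ ?_ ?_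
    · intro x _
      rw [mem_range]
      exact ZMod.val_lt x
    · intro i _
      exact mem_univ _
    · intro x _
      exact ZMod.natCast_zmod_val x
    · intro i hi
      rw [mem_range] at hi
      exact ZMod.val_cast_of_lt hi
    · intro x _
      rfl
  have h1 : ∀ x : ZMod d, bv d x ^ 2 = (2 * (x.val : ℚ) - d) ^ 2 - if x = 0 then (d : ℚ) ^ 2 else 0 := by
    intro x
    unfold bv
    by_cases hx : x = 0
    · rw [if_pos hx, if_pos hx, hx, ZMod.val_zero]
      push_cast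
      ring
    · rw [if_neg hx, if_neg hx, sub_zero]
  simp only [h1]
  rw [Finset.sum_sub_distrib, h0, sum_sq14, Finset.sum_ite_eq' univ (0 : ZMod d), if_pos (mem_univ _)]
  ring

section link

variable {N d : ℕ} [NeZero d]

theorem dvd_val {k : ℕ} {a : Fin k → ZMod d} (h : ∑ i, a i = 0) : d ∣ ∑ i, (a i).val := by
  rw [← ZMod.natCast_eq_zero_iff]
  push_cast
  rw [← h]
  exact sum_congr rfl fun i _ => ZMod.natCast_zmod_val (a i)

/-- the sum over the Hodge numbers as a sum over vectors of residues -/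
theorem sum_hyp14 (F : ℤ → ℚ) : ∑ j ∈ Icc (0 : ℤ) N, (hyp N d j : ℚ) * F j =
    ∑ a ∈ Bk d (N + 2) 0, F ((∑ i, (a i).val : ℕ) / d - 1) := by
  have hd : 0 < d := NeZero.pos d
  have h1 : ∀ j : ℤ, (hyp N d j : ℚ) * F j =
      ∑ a ∈ (Bk d (N + 2) 0).filter (fun a => ((∑ i, (a i).val : ℕ) : ℤ) = (j + 1) * d),
        F ((∑ i, (a i).val : ℕ) / d - 1) := by
    intro j
    have h2 : ∀ a ∈ (Bk d (N + 2) 0).filter (fun a => ((∑ i, (a i).val : ℕ) : ℤ) = (j + 1) * d),
        F ((∑ i, (a i).val : ℕ) / d - 1) = F j := by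
      intro a ha
      rw [mem_filter] at ha
      rw [ha.2, Int.mul_ediv_cancel _ (by omega), add_sub_cancel_right]
    rw [sum_congr rfl h2, sum_const, nsmul_eq_mul]
    congr 2
    unfold hyp
    refine card_nbij' (fun a i => ((a i : ℕ) : ZMod d)) (fun b i => ⟨(b i).val, ZMod.val_lt _⟩) ?_ ?_ ?_ ?_
    · intro a ha
      have ha := mem_filter.1 ha
      obtain ⟨-, h3, h4⟩ := ha
      have h5 : ∀ i, (((a i : ℕ) : ZMod d)).val = (a i : ℕ) := fun i => ZMod.val_cast_of_lt (a i).2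
      refine mem_filter.2 ⟨mem_filter.2 ⟨mem_univ _, fun i => ?_, ?_⟩, ?_⟩
      · intro h6
        have h7 := congrArg ZMod.val h6
        rw [h5, ZMod.val_zero] at h7
        have := h3 i
        omega
      · have h8 : ((∑ i, ((a i : ℕ) : ℤ) : ℤ) : ZMod d) = (((j + 1) * d : ℤ) : ZMod d) := by rw [h4]
        push_cast at h8
        rw [ZMod.natCast_self, mul_zero] at h8
        exact h8
      · simp only [h5]
        push_cast
        exact h4
    · intro b hb
      have hb := mem_filter.1 hb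
      obtain ⟨hb, h4⟩ := hb
      have hb := mem_filter.1 hb
      obtain ⟨-, h2, h3⟩ := hb
      refine mem_filter.2 ⟨mem_univ _, fun i => ?_, ?_⟩
      · have h5 : (b i).val ≠ 0 := fun h => h2 i ((ZMod.val_eq_zero _).1 h)
        change 1 ≤ (b i).val
        omega
      · push_cast at h4
        exact h4
    · intro a _
      funext i
      apply Fin.ext
      exact ZMod.val_cast_of_lt (a i).2
    · intro b _
      funext i
      exact ZMod.natCast_zmod_val (b i)
  simp only [h1]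
  simp only [Finset.sum_filter]
  rw [Finset.sum_comm]
  refine sum_congr rfl fun a ha => ?_
  have ha := mem_filter.1 ha
  obtain ⟨-, h2, h3⟩ := ha
  obtain ⟨m, hm⟩ := dvd_val h3
  have h4 : ∑ i, (a i).val < (N + 2) * d := by
    calc ∑ i, (a i).val < ∑ _i : Fin (N + 2), d :=
          sum_lt_sum_of_nonempty univ_nonempty fun i _ => ZMod.val_lt _
      _ = (N + 2) * d := by rw [sum_const, card_univ, Fintype.card_fin, smul_eq_mul]
  have h5 : 0 < ∑ i, (a i).val :=
    sum_pos (fun i _ => Nat.pos_of_ne_zero fun h => h2 i ((ZMod.val_eq_zero _).1 h)) univ_nonempty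
  rw [hm] at h4 h5
  have h6 : m < N + 2 := by
    rw [mul_comm] at h4
    exact Nat.lt_of_mul_lt_mul_right h4
  have h7 : 0 < m := Nat.pos_of_mul_pos_left h5
  have h8 : ∀ j : ℤ, (((∑ i, (a i).val : ℕ) : ℤ) = (j + 1) * d) = (j = (m : ℤ) - 1) := by
    intro j
    rw [hm]
    push_cast
    apply propext
    constructor
    · intro h
      have h9 : ((m : ℤ) - (j + 1)) * d = 0 := by linear_combination h
      rcases mul_eq_zero.1 h9 with h10 | h10
      · omega
      · exfalso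
        have : (d : ℤ) ≠ 0 := by exact_mod_cast hd.ne'
        exact this h10
    · intro h
      rw [h]
      ring
  simp only [h8]
  rw [Finset.sum_ite_eq' (Icc (0 : ℤ) N) ((m : ℤ) - 1), if_pos]
  rw [mem_Icc]
  omega

/-- the dimension -/
theorem dim_hyp14 : (d : ℚ) * ∑ j ∈ Icc (0 : ℤ) N, (hyp N d j : ℚ) = ((d : ℚ) - 1) ^ (N + 2) + (-1) ^ N * (d - 1) := by
  have hd : (d : ℚ) ≠ 0 := Nat.cast_ne_zero.2 (NeZero.ne d)
  have h1 := sum_hyp14 (N := N) (d := d) (fun _ => 1)
  simp only [mul_one, sum_const, nsmul_eq_mul] at h1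
  rw [h1, card_Bk, if_pos rfl]
  field_simp
  ring

/-- the second moment -/
theorem tr_hyp14 : 3 * (d : ℚ) * ∑ j ∈ Icc (0 : ℤ) N, (hyp N d j : ℚ) * (2 * j - N) ^ 2 =
    (N + 2) * (d - 1) * (d - 2) * ((((d : ℚ) - 1) ^ (N + 1) + (-1) ^ N) / d - (-1) ^ N * (N + 1)) := by
  have hd : (d : ℚ) ≠ 0 := Nat.cast_ne_zero.2 (NeZero.ne d)
  have h1 := sum_hyp14 (N := N) (d := d) (fun j => (2 * (j : ℚ) - N) ^ 2)
  have h2 : ∑ a ∈ Bk d (N + 2) 0, (2 * ((((∑ i, (a i).val : ℕ) : ℤ) / (d : ℤ) - 1 : ℤ) : ℚ) - N) ^ 2 =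
      Mk d (N + 2) 0 / d ^ 2 := by
    unfold Mk
    rw [Finset.sum_div]
    refine sum_congr rfl fun a ha => ?_
    have ha := mem_filter.1 ha
    obtain ⟨-, h2, h3⟩ := ha
    obtain ⟨m, hm⟩ := dvd_val h3
    have h4 : ∑ i, bv d (a i) = 2 * ((∑ i, (a i).val : ℕ) : ℚ) - (N + 2) * d := by
      have h5 : ∀ i, bv d (a i) = 2 * ((a i).val : ℚ) - d := fun i => if_neg (h2 i)
      simp only [h5]
      rw [Finset.sum_sub_distrib, ← Finset.mul_sum, sum_const, card_univ, Fintype.card_fin, nsmul_eq_mul]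
      push_cast
      ring
    rw [h4, hm]
    have h6 : (((d * m : ℕ) : ℤ) / (d : ℤ)) = m := by
      push_cast
      rw [Int.mul_ediv_cancel_left _ (by exact_mod_cast NeZero.ne d)]
    rw [h6]
    push_cast
    field_simp
    ring
  rw [h2, Mk_zero, sum_bv_sq] at h1
  rw [h1]
  push_cast
  field_simp
  ring

end link

end MH.HY
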